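import Pool.Agent.H211.AD.Stm2

/-!
Project AD (helper211), piece LAND (helper740).
-/

set_option autoImplicit false

open Metric Set MeasureTheory Filter Topology

namespace Pool.Agent.H740.AD211.LAND

open Pool.Agent.H211.AD

variable {f : ℂ → ℂ} {U K : Set ℂ} {Cr : Finset ℂ} {ℓ : ℂ → ℕ} {δ₀ Cp rp c₀ μ : ℝ}

/-- the derivative near a critical point -/
theorem loc_nl (hS : Sys f U K Cr ℓ δ₀ Cp rp c₀ μ) {c y y' : ℂ} (hc : c ∈ Cr) (hy : 0 < ‖y - c‖)
    (hy2 : 2 * ‖y - c‖ ≤ rp) (hy' : ‖y' - y‖ < ‖y - c‖ / 2) :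
    ‖deriv f y' - deriv f y‖ ≤ 6 * Cp ^ 2 * 2 ^ ℓ c * ‖deriv f y‖ * (‖y' - y‖ / ‖y - c‖) := by
  set ρ := ‖y - c‖ with hρ
  have hCp : 0 < Cp := lt_of_lt_of_le one_pos hS.Cp_ge
  have hin : ∀ x ∈ ball y (ρ / 2), ‖x - c‖ ≤ 2 * ρ := by
    intro x hx
    rw [mem_ball, dist_eq_norm] at hx
    calc ‖x - c‖ = ‖(x - y) + (y - c)‖ := by congr 1; ring
      _ ≤ ‖x - y‖ + ‖y - c‖ := norm_add_le _ _
      _ ≤ 2 * ρ := by rw [← hρ]; linarith
  have hU : ball y (ρ / 2) ⊆ U := fun x hx => (hS.loc c hc x ((hin x hx).trans hy2)).1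
  have hd : DifferentiableOn ℂ (deriv f) (ball y (ρ / 2)) :=
    (hS.diff.mono hU).deriv isOpen_ball
  have hb : ∀ x ∈ ball y (ρ / 2), ‖deriv f x‖ ≤ Cp * (2 * ρ) ^ (ℓ c - 1) := by
    intro x hx
    refine ((hS.loc c hc x ((hin x hx).trans hy2)).2.2.2.1).trans ?_
    gcongr
    exact hin x hx
  have hyin : y ∈ ball y (ρ / 2) := mem_ball_self (by positivity)
  have hpos : 0 < Cp * (2 * ρ) ^ (ℓ c - 1) := by positivity
  have hmaps : MapsTo (deriv f) (ball y (ρ / 2))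
      (ball (deriv f y) (3 * (Cp * (2 * ρ) ^ (ℓ c - 1)))) := by
    intro x hx
    rw [mem_ball, dist_eq_norm]
    have h1 := norm_sub_le (deriv f x) (deriv f y)
    have h2 := hb x hx
    have h3 := hb y hyin
    linarith
  have hy'in : y' ∈ ball y (ρ / 2) := by rw [mem_ball, dist_eq_norm]; exact hy'
  have h1 := Complex.dist_le_div_mul_dist_of_mapsTo_ball hd (hmaps.mono_right ball_subset_closedBall) hy'in
  rw [dist_eq_norm, dist_eq_norm] at h1
  refine h1.trans ?_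
  have h2 : ρ ^ (ℓ c - 1) ≤ Cp * ‖deriv f y‖ :=
    (hS.loc c hc y (by rw [← hρ]; linarith)).2.2.2.2
  have h3 : (2 : ℝ) ^ (ℓ c - 1) ≤ 2 ^ ℓ c := pow_le_pow_right₀ (by norm_num) (Nat.sub_le _ _)
  have h4 : 3 * (Cp * (2 * ρ) ^ (ℓ c - 1)) / (ρ / 2) * ‖y' - y‖ =
      6 * Cp * (2 ^ (ℓ c - 1)) * (ρ ^ (ℓ c - 1)) * (‖y' - y‖ / ρ) := by
    rw [mul_pow]
    field_simp
    ring
  rw [h4]
  have h5 : 6 * Cp * (2 ^ (ℓ c - 1)) * (ρ ^ (ℓ c - 1)) ≤ 6 * Cp * 2 ^ ℓ c * (Cp * ‖deriv f y‖) := by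
    gcongr
  calc 6 * Cp * (2 ^ (ℓ c - 1)) * (ρ ^ (ℓ c - 1)) * (‖y' - y‖ / ρ)
      ≤ 6 * Cp * 2 ^ ℓ c * (Cp * ‖deriv f y‖) * (‖y' - y‖ / ρ) :=
        mul_le_mul_of_nonneg_right h5 (by positivity)
    _ = _ := by ring

section NA

variable {u : ℂ → ℂ} {a₀ : ℂ} {σ : ℝ} {D : ℂ}

theorem NA.lo (h : NA u a₀ σ D (3 / 4)) {a : ℂ} (ha : a ∈ ball a₀ σ) : ‖D‖ / 4 ≤ ‖deriv u a‖ := by
  have h1 := h.2.2 a ha
  have h2 : ‖D‖ ≤ ‖deriv u a‖ + ‖deriv u a - D‖ := by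
    calc ‖D‖ = ‖deriv u a - (deriv u a - D)‖ := by congr 1; ring
      _ ≤ _ := norm_sub_le _ _
  linarith

theorem NA.hi (h : NA u a₀ σ D (3 / 4)) {a : ℂ} (ha : a ∈ ball a₀ σ) : ‖deriv u a‖ ≤ 2 * ‖D‖ := by
  have h1 := h.2.2 a ha
  have h2 : ‖deriv u a‖ ≤ ‖deriv u a - D‖ + ‖D‖ := by
    calc ‖deriv u a‖ = ‖(deriv u a - D) + D‖ := by congr 1; ring
      _ ≤ _ := norm_add_le _ _
  have := norm_nonneg D
  linarith

theorem NA.lip (h : NA u a₀ σ D (3 / 4)) {a a' : ℂ} (ha : a ∈ ball a₀ σ) (ha' : a' ∈ ball a₀ σ) :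
    ‖u a' - u a‖ ≤ 2 * ‖D‖ * ‖a' - a‖ :=
  Convex.norm_image_sub_le_of_norm_deriv_le
    (fun x hx => (h.1 x hx).differentiableAt (isOpen_ball.mem_nhds hx))
    (fun _ hx => NA.hi h hx) (convex_ball _ _) ha ha'

theorem NA.der (h : NA u a₀ σ D (3 / 4)) {a a' : ℂ} (ha : a ∈ ball a₀ (σ / 2))
    (ha' : a' ∈ ball a (σ / 2)) : ‖deriv u a' - deriv u a‖ ≤ 4 * ‖D‖ / σ * ‖a' - a‖ := by
  have hσ : 0 < σ / 2 := by
    have := (mem_ball.1 ha).trans_le' dist_nonneg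
    exact this
  have hD : 0 < ‖D‖ := norm_pos_iff.2 h.2.1
  have hsub : ball a (σ / 2) ⊆ ball a₀ σ := by
    intro x hx
    rw [mem_ball] at hx ha ⊢
    calc dist x a₀ ≤ dist x a + dist a a₀ := dist_triangle _ _ _
      _ < σ := by linarith
  have hd : DifferentiableOn ℂ (deriv u) (ball a (σ / 2)) := (h.1.deriv isOpen_ball).mono hsub
  have haσ : a ∈ ball a₀ σ := hsub (mem_ball_self hσ)
  have hmaps : MapsTo (deriv u) (ball a (σ / 2)) (ball (deriv u a) (2 * ‖D‖)) := by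
    intro x hx
    rw [mem_ball, dist_eq_norm]
    have h1 := h.2.2 x (hsub hx)
    have h2 := h.2.2 a haσ
    have h3 : ‖deriv u x - deriv u a‖ ≤ ‖deriv u x - D‖ + ‖deriv u a - D‖ := by
      calc ‖deriv u x - deriv u a‖ = ‖(deriv u x - D) - (deriv u a - D)‖ := by congr 1; ring
        _ ≤ _ := norm_sub_le _ _
    linarith
  have h1 := Complex.dist_le_div_mul_dist_of_mapsTo_ball hd (hmaps.mono_right ball_subset_closedBall) ha'
  rw [dist_eq_norm, dist_eq_norm] at h1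
  refine h1.trans (le_of_eq ?_)
  congr 1
  field_simp
  ring

end NA

/-- one step of the family, away from the critical point -/
theorem step_NA (hS : Sys f U K Cr ℓ δ₀ Cp rp c₀ μ) {F : ℂ → ℂ → ℂ} {A : ℂ → ℂ → Prop} {q : ℕ}
    {ρ₁ δ₁ C₁ : ℝ} (hF : Fam F A f K q ρ₁ δ₁ C₁) {c : ℂ} (hc : c ∈ Cr) {r : ℝ} (hr : 0 < r)
    (hr1 : r < ρ₁ ^ q) {a₀ : ℂ} {σ : ℝ} {u : ℂ → ℂ} {D : ℂ} (hσ : 0 < σ)
    (hq : ∀ a ∈ ball a₀ σ, ‖a‖ ^ q ≤ r) (hu : NA u a₀ σ D (3 / 4)) {X : ℝ}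
    (hX : ∀ a ∈ ball a₀ σ, ‖u a - c‖ ≤ X) (hX1 : 2 * X ≤ rp) (hX2 : X ≤ δ₁) {s lam : ℝ} (hs : 0 < s)
    (hs1 : s ≤ 1) (hl : 0 < lam) (hl1 : lam ≤ 1 / 128) (hl2 : lam * (6 * Cp ^ 2 * 2 ^ ℓ c) ≤ 1 / 64)
    {a : ℂ} (ha : a ∈ ball a₀ (σ / 2)) (hm : s * ‖D‖ * σ ≤ ‖u a - c‖)
    (hsm : 24 * C₁ * r ≤ lam * (s * ‖D‖ * σ) ^ ℓ c / (4 * Cp)) :
    NA (fun a' => F a' (u a')) a (lam * s * σ / 2) (deriv f (u a) * deriv u a) (1 / 2) ∧
      lam * (s * ‖D‖ * σ) ^ ℓ c / (4 * Cp) ≤ ‖deriv f (u a) * deriv u a‖ * (lam * s * σ) ∧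
      ∀ a' ∈ ball a (lam * s * σ / 2), ‖F a' (u a') - f c‖ ≤ Cp * X ^ ℓ c + C₁ * r := by
  have hD : 0 < ‖D‖ := norm_pos_iff.2 hu.2.1
  have hCp : 0 < Cp := lt_of_lt_of_le one_pos hS.Cp_ge
  set m := s * ‖D‖ * σ with hmdef
  have hm0 : 0 < m := by positivity
  set σ' := lam * s * σ with hσ'
  have hσ'0 : 0 < σ' := by positivity
  have hσ'1 : σ' ≤ σ / 4 := by
    have h1 : lam * s ≤ 1 / 128 * 1 := mul_le_mul hl1 hs1 hs.le (by norm_num)
    have h2 : lam * s * σ ≤ (1 / 128 * 1) * σ := mul_le_mul_of_nonneg_right h1 hσ.le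
    linarith
  have hsub : ball a σ' ⊆ ball a₀ σ := by
    intro x hx
    rw [mem_ball] at hx ha ⊢
    calc dist x a₀ ≤ dist x a + dist a a₀ := dist_triangle _ _ _
      _ < σ := by linarith
  have haσ : a ∈ ball a₀ σ := hsub (mem_ball_self hσ'0)
  have hy0 : 0 < ‖u a - c‖ := lt_of_lt_of_le hm0 hm
  have hthick : ∀ x ∈ ball a₀ σ, u x ∈ cthickening δ₁ K := by
    intro x hx
    refine mem_cthickening_of_dist_le (u x) c δ₁ K (hS.critK c hc) ?_
    rw [dist_eq_norm]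
    exact (hX x hx).trans hX2
  have hρ : ∀ x ∈ ball a₀ σ, ‖x‖ < ρ₁ := by
    intro x hx
    exact lt_of_pow_lt_pow_left₀ q hF.ρ₁_pos.le ((hq x hx).trans_lt hr1)
  have hXrp : ∀ x ∈ ball a₀ σ, ‖u x - c‖ ≤ rp := by
    intro x hx
    have h1 := hX x hx
    have h2 := norm_nonneg (u x - c)
    linarith
  -- distances
  have hdist : ∀ x ∈ ball a σ', ‖u x - u a‖ ≤ 2 * lam * ‖u a - c‖ := by
    intro x hx
    have h1 := NA.lip hu haσ (hsub hx)
    have h2 : ‖x - a‖ ≤ σ' := by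
      rw [mem_ball, dist_eq_norm] at hx
      exact hx.le
    calc ‖u x - u a‖ ≤ 2 * ‖D‖ * ‖x - a‖ := h1
      _ ≤ 2 * ‖D‖ * σ' := by gcongr
      _ = 2 * lam * m := by rw [hσ', hmdef]; ring
      _ ≤ 2 * lam * ‖u a - c‖ := by gcongr
  have hdu : ∀ x ∈ ball a σ', ‖deriv u x - deriv u a‖ ≤ 16 * lam * ‖deriv u a‖ := by
    intro x hx
    have hx' : x ∈ ball a (σ / 2) := ball_subset_ball (by linarith) hx
    have h1 := NA.der hu ha hx'
    have h2 : ‖x - a‖ ≤ σ' := by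
      rw [mem_ball, dist_eq_norm] at hx
      exact hx.le
    have h3 := NA.lo hu haσ
    calc ‖deriv u x - deriv u a‖ ≤ 4 * ‖D‖ / σ * ‖x - a‖ := h1
      _ ≤ 4 * ‖D‖ / σ * σ' := by gcongr
      _ = 4 * ‖D‖ * lam * s := by rw [hσ']; field_simp
      _ ≤ 4 * ‖D‖ * lam * 1 := by gcongr
      _ = 16 * lam * (‖D‖ / 4) := by ring
      _ ≤ 16 * lam * ‖deriv u a‖ := by gcongr
  have hdf : ∀ x ∈ ball a σ', ‖deriv f (u x) - deriv f (u a)‖ ≤ 1 / 32 * ‖deriv f (u a)‖ := by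
    intro x hx
    have h1 := hdist x hx
    have h2 : ‖u x - u a‖ < ‖u a - c‖ / 2 := by
      have : 2 * lam * ‖u a - c‖ ≤ 2 * (1 / 128) * ‖u a - c‖ := by gcongr
      linarith
    have h3 := loc_nl hS hc hy0 (by have := hX a haσ; linarith) h2
    refine h3.trans ?_
    have h4 : ‖u x - u a‖ / ‖u a - c‖ ≤ 2 * lam := by
      rw [div_le_iff₀ hy0]
      exact h1
    calc 6 * Cp ^ 2 * 2 ^ ℓ c * ‖deriv f (u a)‖ * (‖u x - u a‖ / ‖u a - c‖)
        ≤ 6 * Cp ^ 2 * 2 ^ ℓ c * ‖deriv f (u a)‖ * (2 * lam) := by gcongr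
      _ = 2 * (lam * (6 * Cp ^ 2 * 2 ^ ℓ c)) * ‖deriv f (u a)‖ := by ring
      _ ≤ 2 * (1 / 64) * ‖deriv f (u a)‖ := by gcongr
      _ = _ := by ring
  -- the slope
  have hloca := hS.loc c hc (u a) (hXrp a haσ)
  have hfl : m ^ (ℓ c - 1) / Cp ≤ ‖deriv f (u a)‖ := by
    rw [div_le_iff₀ hCp, mul_comm]
    refine le_trans ?_ hloca.2.2.2.2
    gcongr
  have hslope : lam * m ^ ℓ c / (4 * Cp) ≤ ‖deriv f (u a) * deriv u a‖ * σ' := by
    rw [norm_mul]
    have h3 := NA.lo hu haσ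
    have h5 : m ^ ℓ c = m ^ (ℓ c - 1) * m := by
      rw [← pow_succ]
      congr 1
      have := hS.deg c hc
      omega
    calc lam * m ^ ℓ c / (4 * Cp) = (m ^ (ℓ c - 1) / Cp) * (‖D‖ / 4) * σ' := by
          rw [h5, hσ']
          conv_lhs => rw [show lam * (m ^ (ℓ c - 1) * m) = lam * (m ^ (ℓ c - 1) * (s * ‖D‖ * σ)) by
            rw [← hmdef]]
          field_simp
      _ ≤ ‖deriv f (u a)‖ * ‖deriv u a‖ * σ' := by gcongr
  have hD2 : 0 < ‖deriv f (u a) * deriv u a‖ := by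
    by_contra hcon
    have h1 : ‖deriv f (u a) * deriv u a‖ = 0 := le_antisymm (not_lt.1 hcon) (norm_nonneg _)
    rw [h1, zero_mul] at hslope
    have : 0 < lam * m ^ ℓ c / (4 * Cp) := by positivity
    linarith
  have hw : ∀ x ∈ ball a σ', ‖F x (u x) - f (u x)‖ ≤ C₁ * r := by
    intro x hx
    have h1 := hF.close x (u x) (hρ x (hsub hx)) (hthick x (hsub hx))
    exact h1.trans (mul_le_mul_of_nonneg_left (hq x (hsub hx)) hF.C₁_pos.le)
  have huat : ∀ x ∈ ball a₀ σ, DifferentiableAt ℂ u x := fun x hx =>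
    (hu.1 x hx).differentiableAt (isOpen_ball.mem_nhds hx)
  have hfat : ∀ x ∈ ball a₀ σ, DifferentiableAt ℂ f (u x) := fun x hx =>
    (hS.diff _ (hS.loc c hc (u x) (hXrp x hx)).1).differentiableAt
      (hS.openU.mem_nhds (hS.loc c hc (u x) (hXrp x hx)).1)
  have hwat : ∀ x ∈ ball a₀ σ, DifferentiableAt ℂ (fun a' => F a' (u a')) x := by
    intro x hx
    have h1 := (hF.smooth x (u x) (hρ x hx) (hthick x hx)).differentiableAt (by norm_num)
    have h2 : DifferentiableAt ℂ (fun a' => (a', u a')) x := differentiableAt_id.prodMk (huat x hx)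
    exact DifferentiableAt.comp (g := fun p : ℂ × ℂ => F p.1 p.2) x h1 h2
  refine ⟨⟨fun x hx => ?_, ?_, ?_⟩, hslope, ?_⟩
  · exact (hwat x (hsub (ball_subset_ball (by linarith) hx))).differentiableWithinAt
  · exact norm_pos_iff.1 hD2
  · intro x hx
    have hxσ' : x ∈ ball a σ' := ball_subset_ball (by linarith) hx
    have hxσ : x ∈ ball a₀ σ := hsub hxσ'
    have hgd : DifferentiableOn ℂ (fun a' => F a' (u a') - f (u a')) (ball x (σ' / 2)) := by
      intro y hy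
      have hyσ : y ∈ ball a₀ σ := by
        refine hsub ?_
        rw [mem_ball] at hy hx ⊢
        calc dist y a ≤ dist y x + dist x a := dist_triangle _ _ _
          _ < σ' := by linarith
      exact ((hwat y hyσ).sub ((hfat y hyσ).comp y (huat y hyσ))).differentiableWithinAt
    have hC₁r : 0 < C₁ * r := mul_pos hF.C₁_pos hr
    have hgm : MapsTo (fun a' => F a' (u a') - f (u a')) (ball x (σ' / 2))
        (ball ((fun a' => F a' (u a') - f (u a')) x) (3 * (C₁ * r))) := by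
      intro y hy
      rw [mem_ball, dist_eq_norm]
      have hyσ : y ∈ ball a σ' := by
        rw [mem_ball] at hy hx ⊢
        calc dist y a ≤ dist y x + dist x a := dist_triangle _ _ _
          _ < σ' := by linarith
      have h1 := hw y hyσ
      have h2 := hw x hxσ'
      have h3 := norm_sub_le (F y (u y) - f (u y)) (F x (u x) - f (u x))
      calc _ ≤ _ := h3
        _ < _ := by linarith
    have hgder := Complex.norm_deriv_le_div_of_mapsTo_ball hgd (hgm.mono_right ball_subset_closedBall) (by positivity)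
    have hgat : DifferentiableAt ℂ (fun a' => F a' (u a') - f (u a')) x :=
      (hwat x hxσ).sub ((hfat x hxσ).comp x (huat x hxσ))
    have hfuat : DifferentiableAt ℂ (fun a' => f (u a')) x := (hfat x hxσ).comp x (huat x hxσ)
    have hfuder : deriv (fun a' => f (u a')) x = deriv f (u x) * deriv u x := by
      have := deriv_comp x (hfat x hxσ) (huat x hxσ)
      exact this
    have hsum : deriv (fun a' => F a' (u a')) x =
        deriv (fun a' => F a' (u a') - f (u a')) x + deriv f (u x) * deriv u x := by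
      rw [← hfuder, ← deriv_add hgat hfuat]
      congr 1
      funext y
      simp
    have e1 := hdu x hxσ'
    have e2 := hdf x hxσ'
    have e3 : 3 * (C₁ * r) / (σ' / 2) ≤ 1 / 4 * ‖deriv f (u a) * deriv u a‖ := by
      rw [div_le_iff₀ (by positivity)]
      have h1 := hsm.trans hslope
      nlinarith
    have e4 : ‖deriv f (u x) * deriv u x - deriv f (u a) * deriv u a‖ ≤
        1 / 4 * ‖deriv f (u a) * deriv u a‖ := by
      have h1 : deriv f (u x) * deriv u x - deriv f (u a) * deriv u a =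
          deriv f (u x) * (deriv u x - deriv u a) + (deriv f (u x) - deriv f (u a)) * deriv u a := by
        ring
      have h2 : ‖deriv f (u x)‖ ≤ 33 / 32 * ‖deriv f (u a)‖ := by
        have : ‖deriv f (u x)‖ ≤ ‖deriv f (u x) - deriv f (u a)‖ + ‖deriv f (u a)‖ := by
          calc ‖deriv f (u x)‖ = ‖(deriv f (u x) - deriv f (u a)) + deriv f (u a)‖ := by
                congr 1; ring
            _ ≤ _ := norm_add_le _ _
        linarith
      have h3 : ‖deriv u x - deriv u a‖ ≤ 1 / 8 * ‖deriv u a‖ := by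
        refine e1.trans ?_
        have : 16 * lam ≤ 1 / 8 := by linarith
        gcongr
      rw [h1, norm_mul]
      calc ‖deriv f (u x) * (deriv u x - deriv u a) + (deriv f (u x) - deriv f (u a)) * deriv u a‖
          ≤ ‖deriv f (u x)‖ * ‖deriv u x - deriv u a‖ +
            ‖deriv f (u x) - deriv f (u a)‖ * ‖deriv u a‖ := by
              refine (norm_add_le _ _).trans ?_
              rw [norm_mul, norm_mul]
        _ ≤ (33 / 32 * ‖deriv f (u a)‖) * (1 / 8 * ‖deriv u a‖) +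
            (1 / 32 * ‖deriv f (u a)‖) * ‖deriv u a‖ := by gcongr
        _ ≤ 1 / 4 * (‖deriv f (u a)‖ * ‖deriv u a‖) := by
            have := mul_nonneg (norm_nonneg (deriv f (u a))) (norm_nonneg (deriv u a))
            nlinarith
    rw [hsum]
    calc ‖deriv (fun a' => F a' (u a') - f (u a')) x + deriv f (u x) * deriv u x -
          deriv f (u a) * deriv u a‖
        = ‖deriv (fun a' => F a' (u a') - f (u a')) x + (deriv f (u x) * deriv u x -
          deriv f (u a) * deriv u a)‖ := by congr 1; ring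
      _ ≤ ‖deriv (fun a' => F a' (u a') - f (u a')) x‖ + ‖deriv f (u x) * deriv u x -
          deriv f (u a) * deriv u a‖ := norm_add_le _ _
      _ ≤ 1 / 2 * ‖deriv f (u a) * deriv u a‖ := by linarith
  · intro x hx
    have hxσ' : x ∈ ball a σ' := ball_subset_ball (by linarith) hx
    have h1 := hw x hxσ'
    have h2 := (hS.loc c hc (u x) (hXrp x (hsub hxσ'))).2.1
    have h3 := hX x (hsub hxσ')
    calc ‖F x (u x) - f c‖ = ‖(F x (u x) - f (u x)) + (f (u x) - f c)‖ := by congr 1; ring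
      _ ≤ ‖F x (u x) - f (u x)‖ + ‖f (u x) - f c‖ := norm_add_le _ _
      _ ≤ C₁ * r + Cp * X ^ ℓ c := by
          have : Cp * ‖u x - c‖ ^ ℓ c ≤ Cp * X ^ ℓ c := by gcongr
          linarith
      _ = _ := by ring

theorem small {e ε : ℝ} (he : 0 < e) (hε : 0 < ε) :
    ∃ r₀ > 0, ∀ r : ℝ, 0 < r → r < r₀ → r ^ e ≤ ε := by
  refine ⟨ε ^ (1 / e), by positivity, fun r hr hr0 => ?_⟩
  calc r ^ e ≤ (ε ^ (1 / e)) ^ e := Real.rpow_le_rpow hr.le hr0.le he.le
    _ = ε := by rw [← Real.rpow_mul hε.le, one_div, inv_mul_cancel₀ he.ne', Real.rpow_one]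

theorem vol_ball (c : ℂ) {m : ℝ} (hm : 0 ≤ m) :
    volume (ball c m) = ENNReal.ofReal (m ^ 2 * Real.pi) := by
  rw [Complex.volume_ball, ENNReal.ofReal_mul (by positivity), ENNReal.ofReal_pow hm,
    ← NNReal.coe_real_pi, ENNReal.ofReal_coe_nnreal]

/-- piece LAND -/
theorem t_LAND (h1 : S_ARE) (h2 : S_COV) : S_LAND := by
  intro f U K Cr ℓ δ₀ Cp rp c₀ μ hS hne F A q ρ₁ δ₁ C₁ hF β₁ hβ₁ hB β hβ hβ' hL
  obtain ⟨cB, hcB, CB, hCB, rB, hrB, hB⟩ := hB
  obtain ⟨ηL, hηL, cL, hcL, CL, hCL, rL, hrL, hL⟩ := hL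
  obtain ⟨Cc, hCc, hcov⟩ := h2
  obtain ⟨M, hM1, hM⟩ : ∃ M : ℕ, 1 ≤ M ∧ ∀ c ∈ Cr, ℓ c ≤ M :=
    ⟨max 1 (Cr.sup ℓ), le_max_left _ _, fun c hc => (Finset.le_sup hc).trans (le_max_right _ _)⟩
  have hM0 : (0 : ℝ) < M := by exact_mod_cast hM1
  have hCp : 0 < Cp := lt_of_lt_of_le one_pos hS.Cp_ge
  have hC₁ : 0 < C₁ := hF.C₁_pos
  set G : ℝ := 6 * Cp ^ 2 * 2 ^ M with hG
  have hG0 : 0 < G := by positivity
  set lam : ℝ := min (1 / 128) (1 / (64 * G)) with hlam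
  have hl0 : 0 < lam := by positivity
  have hl1 : lam ≤ 1 / 128 := min_le_left _ _
  have hl2 : lam * G ≤ 1 / 64 := by
    calc lam * G ≤ 1 / (64 * G) * G := mul_le_mul_of_nonneg_right (min_le_right _ _) hG0.le
      _ = 1 / 64 := by field_simp
  have hβ1 : 0 < 1 - β := by linarith
  set η : ℝ := min (β₁ / 4) (min (ηL / (6 * M)) ((1 - β) / (4 * M))) with hη
  have hη0 : 0 < η := by positivity
  have hη1 : η ≤ β₁ / 4 := min_le_left _ _
  have hη2 : η * (3 * M : ℕ) ≤ ηL / 2 := by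
    have h : η ≤ ηL / (6 * M) := (min_le_right _ _).trans (min_le_left _ _)
    rw [le_div_iff₀ (by positivity)] at h
    push_cast
    linarith
  have hη3 : η * (2 * M : ℕ) ≤ (1 - β) / 2 := by
    have h : η ≤ (1 - β) / (4 * M) := (min_le_right _ _).trans (min_le_right _ _)
    rw [le_div_iff₀ (by positivity)] at h
    push_cast
    linarith
  have hrp := hS.rp_pos
  have hδ₁ := hF.δ₁_pos
  have hρ₁ := hF.ρ₁_pos
  obtain ⟨r1, hr1, hsm1⟩ := small (e := β₁ / 4) (ε := min (rp / 4) (δ₁ / 2)) (by positivity)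
    (by positivity)
  obtain ⟨r2, hr2, hsm2⟩ := small (e := (1 - β) / 2) (ε := lam / (96 * Cp * C₁)) (by positivity)
    (by positivity)
  obtain ⟨r3, hr3, hsm3⟩ := small (e := ηL / 2) (ε := lam / (8 * Cp * (Cp * 2 ^ M + C₁)))
    (by positivity) (by positivity)
  set ce : ℝ := min cB (min cL (2 * η)) with hce
  have hce0 : 0 < ce := by positivity
  set CC : ℝ := CB + Cc * (4 * CL) + 16 * Real.pi with hCC
  have hpi := Real.pi_pos
  have hCC0 : 0 < CC := by positivity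
  refine ⟨η, hη0, ce, hce0, CC, hCC0, min 1 (min rB (min rL (min (ρ₁ ^ q) (min r1 (min r2 r3))))),
    by positivity, ?_⟩
  intro r hr hrlt z hz a₀ σ u D T ϑ hσ hq hu hT hϑ hϑ1 hϑT hTσ hTℓ
  simp only [lt_min_iff] at hrlt
  obtain ⟨hr1', hrB', hrL', hrρ, hrr1, hrr2, hrr3⟩ := hrlt
  have hrle : r ≤ 1 := hr1'.le
  have hD : 0 < ‖D‖ := norm_pos_iff.2 hu.2.1
  have hsq : 0 < σ ^ 2 := by positivity
  -- comparison of powers
  have hmono : ∀ e : ℝ, ce ≤ e → r ^ e ≤ r ^ ce := fun e he =>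
    Real.rpow_le_rpow_of_exponent_ge hr hrle he
  have hrce : 0 < r ^ ce := Real.rpow_pos_of_pos hr _
  have base : r ^ β₁ ≤ ‖D‖ * σ → volume {a | a ∈ ball a₀ (σ / 2) ∧ ¬ A a (u a)} ≤
      ENNReal.ofReal (CC * r ^ ce * σ ^ 2) := by
    intro hb
    have h := hB r hr hrB' a₀ σ u D hσ hq hu hb
    refine (measure_mono ?_).trans (h.trans (ENNReal.ofReal_le_ofReal ?_))
    · rintro a ⟨ha, ha'⟩
      exact ⟨ball_subset_ball (by linarith) ha, ha'⟩
    · have h3 : r ^ cB ≤ r ^ ce := hmono cB (min_le_left _ _)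
      have h4 : CB ≤ CC := by
        have : 0 < Cc * (4 * CL) := by positivity
        have : 0 < 16 * Real.pi := by positivity
        linarith
      have h5 : 0 < r ^ cB := Real.rpow_pos_of_pos hr _
      gcongr
  set s : ℝ := r ^ η with hs
  have hs0 : 0 < s := Real.rpow_pos_of_pos hr _
  have hs1 : s ≤ 1 := Real.rpow_le_one hr.le hrle hη0.le
  have hT0 : 0 ≤ T := (norm_nonneg _).trans (hT a₀ (mem_ball_self hσ))
  have hsβ : r ^ (β₁ / 4) ≤ s := Real.rpow_le_rpow_of_exponent_ge hr hrle hη1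
  have hβsplit : r ^ (β₁ / 4) * r ^ (β₁ / 4) = r ^ (β₁ / 2) := by
    rw [← Real.rpow_add hr]; congr 1; ring
  have hβsplit2 : r ^ (β₁ / 2) * r ^ (β₁ / 2) = r ^ β₁ := by
    rw [← Real.rpow_add hr]; congr 1; ring
  have hq4 : 0 < r ^ (β₁ / 4) := Real.rpow_pos_of_pos hr _
  have hq2 : 0 < r ^ (β₁ / 2) := Real.rpow_pos_of_pos hr _
  have hq4' : r ^ (β₁ / 4) ≤ 1 := Real.rpow_le_one hr.le hrle (by positivity)
  have hq2' : r ^ (β₁ / 2) ≤ r ^ (β₁ / 4) := by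
    rw [← hβsplit]; nlinarith
  rcases le_or_gt 1 (infDist z (Cr : Set ℂ)) with hfar | hnear
  · -- far from the critical points
    refine base ?_
    have h3 : dC Cr z = 1 := min_eq_left hfar
    rw [h3, mul_one] at hϑT
    have h4 : s ≤ T := hϑ.trans hϑT
    calc r ^ β₁ = r ^ (β₁ / 2) * r ^ (β₁ / 2) := hβsplit2.symm
      _ ≤ s * s := mul_le_mul (hq2'.trans hsβ) (hq2'.trans hsβ) hq2.le hs0.le
      _ ≤ s * T := mul_le_mul_of_nonneg_left h4 hs0.le
      _ ≤ _ := hTσ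
  obtain ⟨c, hc, hcd⟩ := (Cr.finite_toSet.isCompact).exists_infDist_eq_dist
    (Finset.coe_nonempty.2 hne) z
  have hc : c ∈ Cr := hc
  have hdC : dC Cr z = ‖z - c‖ := by
    rw [← dist_eq_norm, ← hcd]
    exact min_eq_right hnear.le
  have hTc : r ^ β ≤ T ^ ℓ c := hTℓ c hc hdC.symm.le
  rcases le_or_gt (r ^ (β₁ / 2)) T with hbig | hsmall
  · refine base ?_
    calc r ^ β₁ = r ^ (β₁ / 2) * r ^ (β₁ / 2) := hβsplit2.symm
      _ ≤ s * T := mul_le_mul (hq2'.trans hsβ) hbig hq2.le hs0.le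
      _ ≤ _ := hTσ
  -- the main case
  have hℓ2 := hS.deg c hc
  have hℓM := hM c hc
  have hTpos : 0 < T := by
    rcases hT0.eq_or_lt with h | h
    · rw [← h, zero_pow (by omega)] at hTc
      exact absurd hTc (not_le.2 (Real.rpow_pos_of_pos hr _))
    · exact h
  have hϑ0 : 0 < ϑ := lt_of_lt_of_le hs0 hϑ
  set X : ℝ := T + T / ϑ with hX
  have hX0 : 0 < X := by positivity
  have hTX : T ≤ X := by
    have : 0 < T / ϑ := by positivity
    linarith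
  have hXs : X ≤ 2 * (T / s) := by
    have h3 : T / ϑ ≤ T / s := by gcongr
    have h4 : T ≤ T / s := by
      rw [le_div_iff₀ hs0]
      nlinarith
    linarith
  have hTs : T / s ≤ r ^ (β₁ / 4) := by
    rw [div_le_iff₀ hs0]
    calc T ≤ r ^ (β₁ / 2) := hsmall.le
      _ = r ^ (β₁ / 4) * r ^ (β₁ / 4) := hβsplit.symm
      _ ≤ r ^ (β₁ / 4) * s := mul_le_mul_of_nonneg_left hsβ hq4.le
  have hsm1' := hsm1 r hr hrr1
  have hX1 : 2 * X ≤ rp := by
    have := hsm1'.trans (min_le_left _ _)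
    linarith
  have hX2 : X ≤ δ₁ := by
    have := hsm1'.trans (min_le_right _ _)
    linarith
  have huX : ∀ a ∈ ball a₀ σ, ‖u a - c‖ ≤ X := by
    intro a ha
    have h3 : ‖z - c‖ ≤ T / ϑ := by
      rw [le_div_iff₀ hϑ0, mul_comm, ← hdC]
      exact hϑT
    calc ‖u a - c‖ = ‖(u a - z) + (z - c)‖ := by congr 1; ring
      _ ≤ ‖u a - z‖ + ‖z - c‖ := norm_add_le _ _
      _ ≤ X := add_le_add (hT a ha) h3
  -- the powers of s
  have hsM2 : r ^ ((1 - β) / 2) ≤ s ^ (2 * ℓ c) := by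
    have h3 : s ^ (2 * M) = r ^ (η * (2 * M : ℕ)) := by
      rw [hs, ← Real.rpow_natCast, ← Real.rpow_mul hr.le]
    calc r ^ ((1 - β) / 2) ≤ r ^ (η * (2 * M : ℕ)) :=
          Real.rpow_le_rpow_of_exponent_ge hr hrle hη3
      _ = s ^ (2 * M) := h3.symm
      _ ≤ s ^ (2 * ℓ c) := pow_le_pow_of_le_one hs0.le hs1 (by omega)
  have hsM3 : r ^ (ηL / 2) ≤ s ^ (3 * ℓ c) := by
    have h3 : s ^ (3 * M) = r ^ (η * (3 * M : ℕ)) := by
      rw [hs, ← Real.rpow_natCast, ← Real.rpow_mul hr.le]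
    calc r ^ (ηL / 2) ≤ r ^ (η * (3 * M : ℕ)) :=
          Real.rpow_le_rpow_of_exponent_ge hr hrle hη2
      _ = s ^ (3 * M) := h3.symm
      _ ≤ s ^ (3 * ℓ c) := pow_le_pow_of_le_one hs0.le hs1 (by omega)
  set m : ℝ := s * ‖D‖ * σ with hm
  have hm0 : 0 < m := by positivity
  have hmT : s * s * T ≤ m := by
    calc s * s * T = s * (s * T) := by ring
      _ ≤ s * (‖D‖ * σ) := mul_le_mul_of_nonneg_left hTσ hs0.le
      _ = m := by rw [hm]; ring
  have hmpow : s ^ (2 * ℓ c) * T ^ ℓ c ≤ m ^ ℓ c := by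
    have h3 : (s * s * T) ^ ℓ c ≤ m ^ ℓ c := by gcongr
    calc s ^ (2 * ℓ c) * T ^ ℓ c = (s * s * T) ^ ℓ c := by
          rw [mul_pow, ← pow_two, ← pow_mul]
      _ ≤ _ := h3
  have hTp : 0 < T ^ ℓ c := by positivity
  have hrsplit : r = r ^ ((1 - β) / 2) * (r ^ ((1 - β) / 2) * r ^ β) := by
    rw [← Real.rpow_add hr, ← Real.rpow_add hr]
    conv_lhs => rw [← Real.rpow_one r]
    congr 1
    ring
  have hsmall2 := hsm2 r hr hrr2
  have hkey1 : 24 * C₁ * r ≤ lam * m ^ ℓ c / (4 * Cp) := by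
    rw [le_div_iff₀ (by positivity)]
    have h3 : r ^ ((1 - β) / 2) * r ^ β ≤ m ^ ℓ c := by
      refine le_trans ?_ hmpow
      exact mul_le_mul hsM2 hTc (Real.rpow_nonneg hr.le _) (by positivity)
    rw [le_div_iff₀ (by positivity)] at hsmall2
    have h4 : 0 ≤ m ^ ℓ c := by positivity
    have h5 : 0 < r ^ ((1 - β) / 2) := Real.rpow_pos_of_pos hr _
    calc 24 * C₁ * r * (4 * Cp) = (r ^ ((1 - β) / 2) * (96 * Cp * C₁)) *
          (r ^ ((1 - β) / 2) * r ^ β) := by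
            conv_lhs => rw [hrsplit]
            ring
      _ ≤ (r ^ ((1 - β) / 2) * (96 * Cp * C₁)) * m ^ ℓ c :=
            mul_le_mul_of_nonneg_left h3 (by positivity)
      _ ≤ lam * m ^ ℓ c := mul_le_mul_of_nonneg_right hsmall2 h4
  -- the radius t
  set t : ℝ := Cp * X ^ ℓ c + C₁ * r with ht
  have hrT : r ≤ T ^ ℓ c := by
    refine le_trans ?_ hTc
    calc r = r ^ (1 : ℝ) := (Real.rpow_one r).symm
      _ ≤ r ^ β := Real.rpow_le_rpow_of_exponent_ge hr hrle hβ'.le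
  have hkey2 : r ^ β ≤ t := by
    have h3 : T ^ ℓ c ≤ X ^ ℓ c := by gcongr
    have h4 : X ^ ℓ c ≤ Cp * X ^ ℓ c := by
      have := hS.Cp_ge
      have h5 : 0 < X ^ ℓ c := by positivity
      nlinarith
    have h5 : 0 < C₁ * r := by positivity
    linarith
  have hkey3 : r ^ ηL * t ≤ lam * m ^ ℓ c / (8 * Cp) := by
    have h3 : X ^ ℓ c * s ^ ℓ c ≤ 2 ^ M * T ^ ℓ c := by
      rw [← mul_pow]
      have h4 : X * s ≤ 2 * T := by
        calc X * s ≤ 2 * (T / s) * s := mul_le_mul_of_nonneg_right hXs hs0.le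
          _ = 2 * T := by field_simp
      calc (X * s) ^ ℓ c ≤ (2 * T) ^ ℓ c := by gcongr
        _ = 2 ^ ℓ c * T ^ ℓ c := mul_pow _ _ _
        _ ≤ 2 ^ M * T ^ ℓ c := by
            gcongr
            norm_num
    have hsl : s ^ ℓ c ≤ 1 := pow_le_one₀ hs0.le hs1
    have hsl0 : 0 < s ^ ℓ c := by positivity
    have h4 : t * s ^ ℓ c ≤ (Cp * 2 ^ M + C₁) * T ^ ℓ c := by
      have h5 : C₁ * r * s ^ ℓ c ≤ C₁ * T ^ ℓ c := by
        calc C₁ * r * s ^ ℓ c ≤ C₁ * r * 1 := by gcongr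
          _ ≤ C₁ * T ^ ℓ c := by rw [mul_one]; gcongr
      calc t * s ^ ℓ c = Cp * (X ^ ℓ c * s ^ ℓ c) + C₁ * r * s ^ ℓ c := by rw [ht]; ring
        _ ≤ Cp * (2 ^ M * T ^ ℓ c) + C₁ * T ^ ℓ c := by gcongr
        _ = _ := by ring
    have hsmall3 := hsm3 r hr hrr3
    rw [le_div_iff₀ (by positivity)] at hsmall3
    have h6 : r ^ ηL = r ^ (ηL / 2) * r ^ (ηL / 2) := by
      rw [← Real.rpow_add hr]; congr 1; ring
    have h7 : 0 < r ^ (ηL / 2) := Real.rpow_pos_of_pos hr _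
    have ht0 : 0 < t := by positivity
    rw [le_div_iff₀ (by positivity)]
    -- multiply by s ^ ℓ c
    have h8 : r ^ ηL * t * (8 * Cp) * s ^ ℓ c ≤ lam * m ^ ℓ c * s ^ ℓ c := by
      calc r ^ ηL * t * (8 * Cp) * s ^ ℓ c
          = r ^ (ηL / 2) * (r ^ (ηL / 2) * (8 * Cp)) * (t * s ^ ℓ c) := by rw [h6]; ring
        _ ≤ r ^ (ηL / 2) * (r ^ (ηL / 2) * (8 * Cp)) * ((Cp * 2 ^ M + C₁) * T ^ ℓ c) :=
            mul_le_mul_of_nonneg_left h4 (by positivity)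
        _ = (r ^ (ηL / 2) * (8 * Cp * (Cp * 2 ^ M + C₁))) * (r ^ (ηL / 2) * T ^ ℓ c) := by ring
        _ ≤ lam * (r ^ (ηL / 2) * T ^ ℓ c) := mul_le_mul_of_nonneg_right hsmall3 (by positivity)
        _ ≤ lam * (s ^ (3 * ℓ c) * T ^ ℓ c) := by gcongr
        _ = lam * (s ^ (2 * ℓ c) * T ^ ℓ c) * s ^ ℓ c := by
            rw [show 3 * ℓ c = 2 * ℓ c + ℓ c by ring, pow_add]; ring
        _ ≤ lam * m ^ ℓ c * s ^ ℓ c := by gcongr
    exact le_of_mul_le_mul_right h8 hsl0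
  -- covering
  set σ' : ℝ := lam * s * σ with hσ'
  have hσ'0 : 0 < σ' := by positivity
  have hσ'1 : σ' ≤ σ / 4 := by
    have h3 : lam * s ≤ 1 / 128 * 1 := mul_le_mul hl1 hs1 hs0.le (by norm_num)
    have h4 : lam * s * σ ≤ (1 / 128 * 1) * σ := mul_le_mul_of_nonneg_right h3 hσ.le
    linarith
  have hcov' := hcov a₀ σ (σ' / 4) (4 * CL * r ^ cL)
    {a | a ∈ ball a₀ (σ / 2) ∧ m ≤ ‖u a - c‖} {a | ¬ A a (u a)} (by positivity) (by linarith)
    (by have := Real.rpow_nonneg hr.le cL; positivity)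
    (fun a ha => ball_subset_ball (by linarith) ha.1) ?_
  · have hare := h1 u a₀ σ D hu (ball c m)
    have hsplit : {a | a ∈ ball a₀ (σ / 2) ∧ ¬ A a (u a)} ⊆
        ({a | ¬ A a (u a)} ∩ {a | a ∈ ball a₀ (σ / 2) ∧ m ≤ ‖u a - c‖}) ∪
          {a | a ∈ ball a₀ σ ∧ u a ∈ ball c m} := by
      rintro a ⟨ha, ha'⟩
      rcases le_or_gt m ‖u a - c‖ with h | h
      · exact Or.inl ⟨ha', ha, h⟩
      · refine Or.inr ⟨ball_subset_ball (by linarith) ha, ?_⟩
        rw [mem_ball, dist_eq_norm]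
        exact h
    refine (measure_mono hsplit).trans ((measure_union_le _ _).trans ?_)
    have h3 : volume {a | a ∈ ball a₀ σ ∧ u a ∈ ball c m} ≤
        ENNReal.ofReal (16 * Real.pi * r ^ ce * σ ^ 2) := by
      refine hare.trans ?_
      rw [vol_ball c hm0.le, ← ENNReal.ofReal_mul (by positivity)]
      refine ENNReal.ofReal_le_ofReal ?_
      have h4 : 16 / ‖D‖ ^ 2 * (m ^ 2 * Real.pi) = 16 * Real.pi * s ^ 2 * σ ^ 2 := by
        rw [hm]
        field_simp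
      rw [h4]
      have h5 : s ^ 2 ≤ r ^ ce := by
        have h6 : s ^ 2 = r ^ (2 * η) := by
          rw [hs, ← Real.rpow_natCast, ← Real.rpow_mul hr.le]
          congr 1
          push_cast
          ring
        rw [h6]
        exact hmono _ ((min_le_right _ _).trans (min_le_right _ _))
      gcongr
    have h4 : Cc * (4 * CL * r ^ cL) * σ ^ 2 ≤ Cc * (4 * CL) * r ^ ce * σ ^ 2 := by
      have h5 : r ^ cL ≤ r ^ ce := hmono _ ((min_le_right _ _).trans (min_le_left _ _))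
      have h6 : Cc * (4 * CL * r ^ cL) = Cc * (4 * CL) * r ^ cL := by ring
      rw [h6]
      gcongr
    calc _ ≤ ENNReal.ofReal (Cc * (4 * CL) * r ^ ce * σ ^ 2) +
          ENNReal.ofReal (16 * Real.pi * r ^ ce * σ ^ 2) :=
          add_le_add (hcov'.trans (ENNReal.ofReal_le_ofReal h4)) h3
      _ = ENNReal.ofReal (Cc * (4 * CL) * r ^ ce * σ ^ 2 + 16 * Real.pi * r ^ ce * σ ^ 2) :=
          (ENNReal.ofReal_add (by positivity) (by positivity)).symm
      _ ≤ ENNReal.ofReal (CC * r ^ ce * σ ^ 2) := by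
          refine ENNReal.ofReal_le_ofReal ?_
          have h5 : 0 < CB * r ^ ce * σ ^ 2 := by positivity
          have h6 : CC * r ^ ce * σ ^ 2 = CB * r ^ ce * σ ^ 2 + Cc * (4 * CL) * r ^ ce * σ ^ 2 +
            16 * Real.pi * r ^ ce * σ ^ 2 := by rw [hCC]; ring
          linarith
  · rintro a ⟨ha, ham⟩
    have hl2' : lam * (6 * Cp ^ 2 * 2 ^ ℓ c) ≤ 1 / 64 := by
      refine le_trans ?_ hl2
      rw [hG]
      gcongr
      norm_num
    obtain ⟨hna, hsl, hwt⟩ := step_NA hS hF hc hr hrρ hσ hq hu huX hX1 hX2 hs0 hs1 hl0 hl1 hl2' ha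
      ham hkey1
    have hsub : ball a (σ' / 2) ⊆ ball a₀ σ := by
      intro x hx
      rw [mem_ball] at hx ha ⊢
      calc dist x a₀ ≤ dist x a + dist a a₀ := dist_triangle _ _ _
        _ < σ := by linarith
    have h3 := hL r hr hrL' c hc a (σ' / 2) (fun a' => F a' (u a')) _ t (by positivity)
      (fun x hx => hq x (hsub hx)) hna hkey2 hwt ?_
    · refine (measure_mono ?_).trans (h3.trans (ENNReal.ofReal_le_ofReal ?_))
      · rintro x ⟨hx1, hx2⟩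
        refine ⟨ball_subset_ball (by linarith) hx2, fun hx3 => hx1 ?_⟩
        have hxσ : x ∈ ball a₀ σ := hsub (ball_subset_ball (by linarith) hx2)
        refine hF.step x (u x) ?_ ?_ hx3
        · exact lt_of_pow_lt_pow_left₀ q hρ₁.le ((hq x hxσ).trans_lt hrρ)
        · refine mem_cthickening_of_dist_le (u x) c δ₁ K (hS.critK c hc) ?_
          rw [dist_eq_norm]
          exact (huX x hxσ).trans hX2
      · refine le_of_eq ?_
        ring
    · calc r ^ ηL * t ≤ lam * m ^ ℓ c / (8 * Cp) := hkey3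
        _ = lam * m ^ ℓ c / (4 * Cp) / 2 := by field_simp; norm_num
        _ ≤ ‖deriv f (u a) * deriv u a‖ * (lam * s * σ) / 2 := by gcongr
        _ = _ := by ring

end Pool.Agent.H740.AD211.LAND
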